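import Pool.Agent.K3h73.TF.Stm

/-!
Brick ARG of the project on trace-class perturbations (owner helper73): a selfadjoint `A` with
`U = ((1 + iA) / (1 - iA))²` which commutes with everything that commutes with `U`.
-/

set_option autoImplicit false

namespace Pool.Agent.K3h9.TF

open scoped InnerProductSpace ComplexConjugate Topology
open Filter

section
variable {H : Type} [NormedAddCommGroup H] [InnerProductSpace ℂ H] [CompleteSpace H]

theorem inner_star_left (c : H →L[ℂ] H) (x y : H) : ⟪(star c) x, y⟫_ℂ = ⟪x, c y⟫_ℂ := by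
  rw [ContinuousLinearMap.star_eq_adjoint]
  exact ContinuousLinearMap.adjoint_inner_left c y x

/-- A selfadjoint injective operator has dense range. -/
theorem denseRange_of_inj (c : H →L[ℂ] H) (hc : star c = c) (hk : ∀ v, c v = 0 → v = 0) :
    DenseRange c := by
  have h1 : (LinearMap.range (c : H →ₗ[ℂ] H))ᗮ = ⊥ := by
    rw [Submodule.eq_bot_iff]
    intro v hv
    apply hk
    have h2 : ⟪c v, c v⟫_ℂ = 0 := by
      have h3 : ⟪c (c v), v⟫_ℂ = 0 := hv _ ⟨c v, rfl⟩
      have h4 := inner_star_left c (c v) v
      rw [hc] at h4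
      rw [← h4, h3]
    exact inner_self_eq_zero.mp h2
  have h2 : (LinearMap.range (c : H →ₗ[ℂ] H)).topologicalClosure = ⊤ := by
    rw [Submodule.topologicalClosure_eq_top_iff]
    exact h1
  have h3 := Submodule.dense_iff_topologicalClosure_eq_top.mpr h2
  exact h3

omit [CompleteSpace H] in
/-- Cancellation of an operator with dense range on the right. -/
theorem cancel_right (c x y : H →L[ℂ] H) (hd : DenseRange c) (h : x * c = y * c) : x = y := by
  have h1 : (x : H → H) = y := by
    refine hd.equalizer x.continuous y.continuous ?_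
    funext v
    exact DFunLike.congr_fun h v
  exact DFunLike.coe_injective h1

omit [CompleteSpace H] in
/-- Cancellation of an injective operator on the left. -/
theorem cancel_left (c x y : H →L[ℂ] H) (hk : ∀ v, c v = 0 → v = 0) (h : c * x = c * y) :
    x = y := by
  ext v
  have h1 : c (x v - y v) = 0 := by
    rw [map_sub, sub_eq_zero]
    exact DFunLike.congr_fun h v
  exact sub_eq_zero.mp (hk _ h1)

/-- Polar decomposition of an operator `a` with injective absolute value `c`. -/
theorem exists_polar (a c : H →L[ℂ] H) (hc : star c = c) (hcc : c * c = star a * a)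
    (hk : ∀ v, c v = 0 → v = 0) : ∃ w : H →L[ℂ] H, w * c = a := by
  have hd := denseRange_of_inj c hc hk
  have hn : ∀ v, ‖a v‖ = ‖c v‖ := by
    intro v
    have h1 : ⟪a v, a v⟫_ℂ = ⟪c v, c v⟫_ℂ := by
      have h2 := inner_star_left a (a v) v
      have h3 := inner_star_left c (c v) v
      rw [← h2, ← h3]
      have h4 : (star a) (a v) = (star c) (c v) := by
        have := DFunLike.congr_fun hcc v
        rw [hc]
        exact this.symm
      rw [h4]
    have h5 : ‖a v‖ ^ 2 = ‖c v‖ ^ 2 := by
      have h6 := inner_self_eq_norm_sq_to_K (𝕜 := ℂ) (a v)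
      have h7 := inner_self_eq_norm_sq_to_K (𝕜 := ℂ) (c v)
      rw [h1, h7] at h6
      exact_mod_cast h6.symm
    exact (sq_eq_sq₀ (norm_nonneg _) (norm_nonneg _)).mp h5
  refine ⟨(a : H →ₗ[ℂ] H).extendOfNorm (c : H →ₗ[ℂ] H), ?_⟩
  ext v
  exact LinearMap.extendOfNorm_eq hd ⟨1, fun x => by simpa using (hn x).le⟩ v

theorem t_arg_aux (U : H →L[ℂ] H) (h1 : star U * U = 1) (h2 : U * star U = 1)
    (h3 : ∀ v, U v = -v → v = 0) :
    ∃ A : H →L[ℂ] H, star A = A ∧ ‖A‖ ≤ 1 ∧
      (∀ X : H →L[ℂ] H, X * U = U * X → X * A = A * X) ∧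
      (1 + Complex.I • A) ^ 2 = U * (1 - Complex.I • A) ^ 2 := by
  -- commuting with `U` implies commuting with `star U`
  have hst : ∀ X : H →L[ℂ] H, X * U = U * X → X * star U = star U * X := by
    intro X hX
    calc X * star U = (star U * U) * X * star U := by rw [h1, one_mul]
      _ = star U * (U * X) * star U := by rw [mul_assoc (star U)]
      _ = star U * (X * U) * star U := by rw [hX]
      _ = star U * X * (U * star U) := by noncomm_ring
      _ = star U * X := by rw [h2, mul_one]
  set a : H →L[ℂ] H := (1 / 2 : ℂ) • (1 + U) with ha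
  have hsa : star a = (1 / 2 : ℂ) • (1 + star U) := by
    rw [ha, star_smul, star_add, star_one]
    congr 1
    simp
  have haa : star a * a = a * star a := by
    rw [hsa, ha, smul_mul_smul_comm, smul_mul_smul_comm, add_mul, add_mul, mul_add, mul_add,
      mul_add, mul_add, h1, h2]
    simp only [one_mul, mul_one]
    congr 1
    abel
  set c : H →L[ℂ] H := CFC.abs a with hcdef
  have hc0 : 0 ≤ c := CFC.abs_nonneg a
  have hc : star c = c := (IsSelfAdjoint.of_nonneg hc0).star_eq
  have hcc : c * c = star a * a := CFC.abs_mul_abs a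
  -- `c` commutes with the commutant of `U`
  have hXa : ∀ X : H →L[ℂ] H, X * U = U * X → X * a = a * X := by
    intro X hX
    rw [ha, mul_smul_comm, smul_mul_assoc, mul_add, add_mul, hX, mul_one, one_mul]
  have hXsa : ∀ X : H →L[ℂ] H, X * U = U * X → X * star a = star a * X := by
    intro X hX
    rw [hsa, mul_smul_comm, smul_mul_assoc, mul_add, add_mul, hst X hX, mul_one, one_mul]
  have hXc : ∀ X : H →L[ℂ] H, X * U = U * X → X * c = c * X := by
    intro X hX
    have h4 : Commute (star a * a) X := by
      have e1 : X * (star a * a) = (star a * a) * X := by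
        rw [← mul_assoc, hXsa X hX, mul_assoc, hXa X hX, mul_assoc]
      exact e1.symm
    have h5 := h4.cfcₙ_nnreal NNReal.sqrt
    have h6 : Commute c X := h5
    exact h6.symm
  have hk : ∀ v, c v = 0 → v = 0 := by
    intro v hv
    apply h3
    have h4 : (star a * a) v = 0 := by
      rw [← hcc]
      change c (c v) = 0
      rw [hv, map_zero]
    have h5 : ⟪a v, a v⟫_ℂ = 0 := by
      rw [← inner_star_left a (a v) v]
      change ⟪(star a * a) v, v⟫_ℂ = 0
      rw [h4, inner_zero_left]
    have h6 : a v = 0 := inner_self_eq_zero.mp h5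
    have h7 : (1 / 2 : ℂ) • (v + U v) = 0 := by
      have : a v = (1 / 2 : ℂ) • (v + U v) := by rw [ha]; rfl
      rw [← this, h6]
    have h8 : v + U v = 0 := by
      rcases smul_eq_zero.mp h7 with h | h
      · norm_num at h
      · exact h
    exact eq_neg_of_add_eq_zero_right h8
  have hd := denseRange_of_inj c hc hk
  obtain ⟨w, hw⟩ := exists_polar a c hc hcc hk
  have hXw : ∀ X : H →L[ℂ] H, X * U = U * X → X * w = w * X := by
    intro X hX
    refine cancel_right c _ _ hd ?_
    calc X * w * c = X * (w * c) := by rw [mul_assoc]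
      _ = a * X := by rw [hw, hXa X hX]
      _ = w * (c * X) := by rw [← mul_assoc, hw]
      _ = w * X * c := by rw [← hXc X hX, mul_assoc]
  have hUw : w * U = U * w := (hXw U rfl).symm
  have hUsw : star w * U = U * star w := by
    have e1 : star U * w = w * star U := hXw (star U) (h1.trans h2.symm)
    have e2 := congrArg star e1
    rw [star_mul, star_mul, star_star] at e2
    exact e2
  have hwsw : star w * w = w * star w := hXw _ hUsw
  have hwu : star w * w = 1 := by
    refine cancel_right c _ _ hd ?_
    refine cancel_left c _ _ hk ?_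
    calc c * (star w * w * c) = (c * star w) * (w * c) := by noncomm_ring
      _ = star (w * c) * (w * c) := by rw [star_mul, hc]
      _ = c * (1 * c) := by rw [hw, one_mul, hcc]
  have hwu' : w * star w = 1 := by rw [← hwsw, hwu]
  have hswc : star w * c = star a := by
    rw [hXc _ hUsw]
    nth_rewrite 1 [← hc]
    rw [← star_mul, hw]
  have hre : w + star w = (2 : ℂ) • c := by
    refine cancel_right c _ _ hd ?_
    rw [add_mul, hw, hswc, smul_mul_assoc, hcc, hsa, ha, smul_mul_smul_comm, add_mul, mul_add,
      mul_add, h1, smul_smul]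
    simp only [one_mul, mul_one]
    have e1 : (1 : H →L[ℂ] H) + U + (star U + 1) = (1 + U) + (1 + star U) := by abel
    rw [e1, ← smul_add]
    congr 1
    norm_num
  have hww : w * w = U := by
    have e1 : U * star w = w := by
      refine cancel_right c _ _ hd ?_
      rw [mul_assoc, hswc, hw, hsa, ha, mul_smul_comm, mul_add, h2, mul_one, add_comm]
    calc w * w = (U * star w) * w := by rw [e1]
      _ = U := by rw [mul_assoc, hwu, mul_one]
  -- `1 + w` is invertible
  have hu : IsUnit (1 + w) := by
    have e1 : (1 + star w) * (1 + w) = (2 : ℂ) • (1 + c) := by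
      rw [add_mul, mul_add, mul_add, hwu, smul_add, ← hre]
      simp only [one_mul, mul_one]
      rw [two_smul]
      abel
    have e2 : IsUnit (1 + c) := by
      have e3 : (-1 : ℝ) ∉ spectrum ℝ c := by
        intro hmem
        have := spectrum_nonneg_of_nonneg hc0 hmem
        norm_num at this
      rw [spectrum.notMem_iff] at e3
      have e4 : algebraMap ℝ (H →L[ℂ] H) (-1) - c = -(1 + c) := by
        rw [map_neg, map_one]
        abel
      rw [e4] at e3
      exact (IsUnit.neg_iff _).mp e3
    have e5 : IsUnit ((1 + star w) * (1 + w)) := by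
      rw [e1]
      have e6 : (2 : ℂ) • (1 + c) = (algebraMap ℂ (H →L[ℂ] H) 2) * (1 + c) := by
        rw [Algebra.smul_def]
      rw [e6]
      refine IsUnit.mul ?_ e2
      exact (IsUnit.mk0 (2 : ℂ) two_ne_zero).map (algebraMap ℂ (H →L[ℂ] H))
    have e7 : Commute (1 + star w) (1 + w) := by
      change (1 + star w) * (1 + w) = (1 + w) * (1 + star w)
      rw [add_mul, mul_add, mul_add, add_mul, mul_add, mul_add, hwsw]
      simp only [one_mul, mul_one]
      abel
    exact ((e7.isUnit_mul_iff).mp e5).2
  obtain ⟨u, hu⟩ := hu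
  set B : H →L[ℂ] H := ((u⁻¹ : (H →L[ℂ] H)ˣ) : H →L[ℂ] H) with hB
  have hB1 : B * (1 + w) = 1 := by rw [← hu, hB]; exact u.inv_mul
  have hB2 : (1 + w) * B = 1 := by rw [← hu, hB]; exact u.mul_inv
  have hXB : ∀ X : H →L[ℂ] H, X * w = w * X → X * B = B * X := by
    intro X hX
    have e1 : X * (1 + w) = (1 + w) * X := by rw [mul_add, add_mul, hX, mul_one, one_mul]
    calc X * B = (B * (1 + w)) * X * B := by rw [hB1, one_mul]
      _ = B * ((1 + w) * X) * B := by rw [mul_assoc B]
      _ = B * (X * (1 + w)) * B := by rw [e1]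
      _ = B * X * ((1 + w) * B) := by noncomm_ring
      _ = B * X := by rw [hB2, mul_one]
  have hBw : w * B = B * w := hXB w rfl
  have hBsw : star w * B = B * star w := hXB _ hwsw
  set A : H →L[ℂ] H := (-Complex.I) • ((w - 1) * B) with hA
  have hIA : Complex.I • A = (w - 1) * B := by
    rw [hA, smul_smul]
    have : Complex.I * -Complex.I = 1 := by rw [mul_neg, Complex.I_mul_I, neg_neg]
    rw [this, one_smul]
  have hp : 1 + Complex.I • A = (2 : ℂ) • (w * B) := by
    calc 1 + Complex.I • A = (1 + w) * B + (w - 1) * B := by rw [hIA, hB2]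
      _ = (2 : ℂ) • (w * B) := by
        rw [two_smul, ← add_mul, ← add_mul]
        congr 1
        abel
  have hm : 1 - Complex.I • A = (2 : ℂ) • B := by
    have e1 : (1 + w) - (w - 1) = (1 : H →L[ℂ] H) + 1 := by abel
    calc 1 - Complex.I • A = (1 + w) * B - (w - 1) * B := by rw [hIA, hB2]
      _ = (2 : ℂ) • B := by rw [← sub_mul, e1, add_mul, one_mul, two_smul]
  refine ⟨A, ?_, ?_, ?_, ?_⟩
  · -- selfadjoint
    have e1 : star B * (1 + star w) = 1 := by
      have := congrArg star hB2
      rw [star_mul, star_add, star_one] at this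
      exact this
    have e2 : (1 + star w) * star B = 1 := by
      have := congrArg star hB1
      rw [star_mul, star_add, star_one] at this
      exact this
    -- `star B = w * B`
    have e3 : star B = w * B := by
      have e4 : (1 + star w) * (w * B) = 1 := by
        rw [← mul_assoc, add_mul, hwu, one_mul, add_comm, hB2]
      calc star B = star B * ((1 + star w) * (w * B)) := by rw [e4, mul_one]
        _ = (star B * (1 + star w)) * (w * B) := by rw [mul_assoc]
        _ = w * B := by rw [e1, one_mul]
    rw [hA, star_smul, star_mul, star_sub, star_one, e3]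
    have e5 : star (-Complex.I) = Complex.I := by simp
    rw [e5]
    have e6 : w * B * (star w - 1) = -((w - 1) * B) := by
      rw [mul_sub, mul_one, sub_mul, one_mul, mul_assoc, ← hBsw, ← mul_assoc, hwu', one_mul]
      abel
    rw [e6, smul_neg, neg_smul]
  · -- norm
    have e0 : ∀ v, ‖(w - 1) v‖ ≤ ‖(1 + w) v‖ := by
      intro v
      have e1 : 0 ≤ (⟪w v, v⟫_ℂ).re := by
        have e2 : 0 ≤ (⟪c v, v⟫_ℂ).re := by
          have := (ContinuousLinearMap.nonneg_iff_isPositive c).mp hc0
          exact this.re_inner_nonneg_left v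
        have e3 : (⟪(w + star w) v, v⟫_ℂ).re = 2 * (⟪w v, v⟫_ℂ).re := by
          have e4 : (w + star w) v = w v + star w v := rfl
          rw [e4, inner_add_left, inner_star_left, Complex.add_re, ← inner_conj_symm v (w v),
            Complex.conj_re]
          ring
        have e5 : (⟪(w + star w) v, v⟫_ℂ).re = 2 * (⟪c v, v⟫_ℂ).re := by
          rw [hre]
          have e6 : ((2 : ℂ) • c) v = (2 : ℂ) • c v := rfl
          rw [e6, inner_smul_left]
          simp
        linarith
      have e7 : ‖(w - 1) v‖ ^ 2 ≤ ‖(1 + w) v‖ ^ 2 := by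
        have e8 : (w - 1) v = w v - v := rfl
        have e9 : (1 + w) v = w v + v := by
          change v + w v = w v + v
          rw [add_comm]
        rw [e8, e9, @norm_sub_sq ℂ, @norm_add_sq ℂ]
        have e10 : RCLike.re ⟪w v, v⟫_ℂ = (⟪w v, v⟫_ℂ).re := rfl
        rw [e10]
        linarith
      exact (sq_le_sq₀ (norm_nonneg _) (norm_nonneg _)).mp e7
    refine ContinuousLinearMap.opNorm_le_bound _ zero_le_one (fun v => ?_)
    have e1 : A v = (-Complex.I) • ((w - 1) (B v)) := rfl
    rw [e1, norm_smul, norm_neg, Complex.norm_I, one_mul, one_mul]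
    refine (e0 _).trans (le_of_eq ?_)
    have e2 : (1 + w) (B v) = v := DFunLike.congr_fun hB2 v
    rw [e2]
  · intro X hX
    have e1 := hXw X hX
    have e2 := hXB X e1
    rw [hA, mul_smul_comm, smul_mul_assoc]
    congr 1
    have e3 : X * (w - 1) = (w - 1) * X := by rw [mul_sub, sub_mul, e1, mul_one, one_mul]
    calc X * ((w - 1) * B) = (w - 1) * (X * B) := by rw [← mul_assoc, e3, mul_assoc]
      _ = (w - 1) * B * X := by rw [e2, mul_assoc]
  · rw [hp, hm, pow_two, pow_two, smul_mul_smul_comm, smul_mul_smul_comm, mul_smul_comm]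
    congr 1
    calc w * B * (w * B) = w * (B * w) * B := by noncomm_ring
      _ = (w * w) * (B * B) := by rw [← hBw]; noncomm_ring
      _ = U * (B * B) := by rw [hww]

end

theorem t_arg : Pool.Agent.K3h73.TF.St_arg := by
  intro H _ _ _ U h1 h2 h3
  exact t_arg_aux U h1 h2 h3

end Pool.Agent.K3h9.TF
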