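import Pool.Agent.K3h73.TF.Stm

/-!
Brick TR of the project on trace-class perturbations (owner helper73): an operator with finite trace
norm has a nuclear representation.
-/

set_option autoImplicit false

namespace Pool.Agent.K3h9.TF

open scoped InnerProductSpace ComplexConjugate Topology
open Filter

section
variable {H : Type} [NormedAddCommGroup H] [InnerProductSpace ℂ H] [CompleteSpace H]

theorem tr_inner_star_left (c : H →L[ℂ] H) (x y : H) : ⟪(star c) x, y⟫_ℂ = ⟪x, c y⟫_ℂ := by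
  rw [ContinuousLinearMap.star_eq_adjoint]
  exact ContinuousLinearMap.adjoint_inner_left c y x

/-- `‖a v‖ = ‖c v‖` for a selfadjoint `c` with `c ^ 2 = star a * a`. -/
theorem norm_eq_of_sq (a c : H →L[ℂ] H) (hc : star c = c) (hcc : c * c = star a * a) (v : H) :
    ‖a v‖ = ‖c v‖ := by
  have h1 : ⟪a v, a v⟫_ℂ = ⟪c v, c v⟫_ℂ := by
    have h2 := tr_inner_star_left a (a v) v
    have h3 := tr_inner_star_left c (c v) v
    rw [← h2, ← h3]
    have h4 : (star a) (a v) = (star c) (c v) := by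
      have := DFunLike.congr_fun hcc v
      rw [hc]
      exact this.symm
    rw [h4]
  have h5 : ‖a v‖ ^ 2 = ‖c v‖ ^ 2 := by
    have h6 := inner_self_eq_norm_sq_to_K (𝕜 := ℂ) (a v)
    have h7 := inner_self_eq_norm_sq_to_K (𝕜 := ℂ) (c v)
    rw [h1, h7] at h6
    exact_mod_cast h6.symm
  exact (sq_eq_sq₀ (norm_nonneg _) (norm_nonneg _)).mp h5

/-- Polar decomposition: there is a contraction `W` with `W c = a`. -/
theorem exists_polar_contraction (a c : H →L[ℂ] H) (hn : ∀ v, ‖a v‖ = ‖c v‖) :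
    ∃ w : H →L[ℂ] H, (∀ v, ‖w v‖ ≤ ‖v‖) ∧ w * c = a := by
  set V : Submodule ℂ H := (LinearMap.range (c : H →ₗ[ℂ] H)).topologicalClosure with hV
  have hVc : IsClosed (V : Set H) := Submodule.isClosed_topologicalClosure _
  haveI : CompleteSpace V := hVc.completeSpace_coe
  have hmem : ∀ v, c v ∈ V := fun v =>
    Submodule.le_topologicalClosure _ ⟨v, rfl⟩
  let e : H →ₗ[ℂ] V := (c : H →ₗ[ℂ] H).codRestrict V hmem
  have he : ∀ v, ((e v : V) : H) = c v := fun v => rfl
  have hd : DenseRange e := by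
    intro x
    rw [Metric.mem_closure_iff]
    intro ε hε
    have hx : (x : H) ∈ closure ((LinearMap.range (c : H →ₗ[ℂ] H) : Submodule ℂ H) : Set H) :=
      x.2
    obtain ⟨y, ⟨v, rfl⟩, hy⟩ := Metric.mem_closure_iff.mp hx ε hε
    exact ⟨e v, ⟨v, rfl⟩, hy⟩
  have hb : ∀ v, ‖(a : H →ₗ[ℂ] H) v‖ ≤ 1 * ‖e v‖ := by
    intro v
    rw [one_mul]
    exact (hn v).le
  let W₀ : V →L[ℂ] H := (a : H →ₗ[ℂ] H).extendOfNorm e
  have hW : ∀ v, W₀ (e v) = a v := fun v => LinearMap.extendOfNorm_eq hd ⟨1, hb⟩ v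
  have hWn : ∀ x, ‖W₀ x‖ ≤ ‖x‖ := by
    intro x
    have := LinearMap.norm_extendOfNorm_apply_le hd 1 hb x
    simpa using this
  refine ⟨W₀ ∘L V.orthogonalProjectionOnto, ?_, ?_⟩
  · intro v
    refine (hWn _).trans ?_
    exact V.norm_orthogonalProjectionOnto_apply_le v
  · ext v
    change W₀ (V.orthogonalProjectionOnto (c v)) = a v
    have h1 : V.orthogonalProjectionOnto (c v) = e v := by
      have := V.orthogonalProjectionOnto_mem_subspace_eq_self (e v)
      exact this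
    rw [h1, hW]

theorem t_tr_aux (b : HilbertBasis ℕ ℂ H) (K : H →L[ℂ] H)
    (hs : Summable (fun n => (⟪b n, CFC.abs K (b n)⟫_ℂ).re)) :
    Pool.Agent.K3h73.TF.Nuc K (∑' n, (⟪b n, CFC.abs K (b n)⟫_ℂ).re) := by
  set c : H →L[ℂ] H := CFC.abs K with hcdef
  have hc0 : 0 ≤ c := CFC.abs_nonneg K
  have hc : star c = c := (IsSelfAdjoint.of_nonneg hc0).star_eq
  have hcc : c * c = star K * K := CFC.abs_mul_abs K
  obtain ⟨W, hWn, hW⟩ := exists_polar_contraction K c (norm_eq_of_sq K c hc hcc)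
  set R : H →L[ℂ] H := CFC.sqrt c with hR
  have hR0 : 0 ≤ R := CFC.sqrt_nonneg c
  have hRs : star R = R := (IsSelfAdjoint.of_nonneg hR0).star_eq
  have hRR : R * R = c := CFC.sqrt_mul_sqrt_self c hc0
  have hnorm : ∀ n, ‖R (b n)‖ * ‖R (b n)‖ = (⟪b n, c (b n)⟫_ℂ).re := by
    intro n
    have h1 := tr_inner_star_left R (b n) (R (b n))
    rw [hRs] at h1
    have h2 : R (R (b n)) = c (b n) := DFunLike.congr_fun hRR (b n)
    rw [h2] at h1
    rw [← h1]
    have h3 := inner_self_eq_norm_sq_to_K (𝕜 := ℂ) (R (b n))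
    rw [h3]
    have h4 : ((‖R (b n)‖ : ℂ) ^ 2) = ((‖R (b n)‖ * ‖R (b n)‖ : ℝ) : ℂ) := by
      push_cast
      ring
    change _ = ((‖R (b n)‖ : ℂ) ^ 2).re
    rw [h4, Complex.ofReal_re]
  have hle : ∀ n, ‖W (R (b n))‖ * ‖R (b n)‖ ≤ (⟪b n, c (b n)⟫_ℂ).re := by
    intro n
    rw [← hnorm n]
    exact mul_le_mul_of_nonneg_right (hWn _) (norm_nonneg _)
  have hsum : Summable (fun n => ‖W (R (b n))‖ * ‖R (b n)‖) :=
    Summable.of_nonneg_of_le (fun n => mul_nonneg (norm_nonneg _) (norm_nonneg _)) hle hs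
  refine ⟨fun n => W (R (b n)), fun n => R (b n), hsum, hsum.tsum_le_tsum hle hs, ?_⟩
  intro v
  have h1 : HasSum (fun n => ⟪b n, R v⟫_ℂ • b n) (R v) := by
    have := b.hasSum_repr (R v)
    simpa only [HilbertBasis.repr_apply_apply] using this
  have h2 := (h1.mapL R).mapL W
  have h3 : W (R (R v)) = K v := by
    have h4 : R (R v) = c v := DFunLike.congr_fun hRR v
    rw [h4]
    exact DFunLike.congr_fun hW v
  rw [h3] at h2
  have h5 : (fun n => W (R (⟪b n, R v⟫_ℂ • b n))) = fun n => ⟪R (b n), v⟫_ℂ • W (R (b n)) := by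
    funext n
    have h6 := tr_inner_star_left R (b n) v
    rw [hRs] at h6
    rw [map_smul, map_smul, h6]
  rw [h5] at h2
  exact h2.tsum_eq.symm

end

theorem t_tr : Pool.Agent.K3h73.TF.St_tr := by
  intro H _ _ _ b K hs
  exact t_tr_aux b K hs

end Pool.Agent.K3h9.TF
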